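import Mathlib

set_option autoImplicit false

namespace Pool.Agent.Results.MP_52b7e0_co.No

open Set Module

abbrev E := EuclideanSpace ℝ (Fin 3)

/-- vertices of a regular tetrahedron centred at the origin -/
def Tet : Set E := {!₂[1, 1, 1], !₂[1, -1, -1], !₂[-1, 1, -1], !₂[-1, -1, 1]}

/-- full symmetry group of the tetrahedron -/
def Full : Set (E ≃ₗᵢ[ℝ] E) := {A | A '' Tet = Tet}

/-- rotation group of the tetrahedron -/
def Rot : Set (E ≃ₗᵢ[ℝ] E) := {A | A ∈ Full ∧ LinearMap.det (A.toLinearEquiv : E →ₗ[ℝ] E) = 1}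

def IsPoly (P : Set E) : Prop :=
  (∃ S : Set E, S.Finite ∧ P = convexHull ℝ S) ∧ (interior P).Nonempty

def Facets (P : Set E) : Set (Set E) := {F | IsExposed ℝ P F ∧ finrank ℝ (vectorSpan ℝ F) = 2}

/-- numbers of vertices and facets of the `G`-symmetric 3-polytopes -/
def FV (G : Set (E ≃ₗᵢ[ℝ] E)) : Set (ℕ × ℕ) :=
  {f | ∃ P, IsPoly P ∧ (∀ A ∈ G, A '' P = P) ∧ f = ((P.extremePoints ℝ).ncard, (Facets P).ncard)}

def dot (n x : E) : ℝ := n 0 * x 0 + n 1 * x 1 + n 2 * x 2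

def amax (P : Set E) (n : E) : Set E := {x ∈ P | ∀ y ∈ P, dot n y ≤ dot n x}

lemma decomp (x : E) : x = x 0 • EuclideanSpace.single 0 1 + x 1 • EuclideanSpace.single 1 1 +
    x 2 • EuclideanSpace.single 2 (1 : ℝ) := by
  ext i; fin_cases i <;> simp

noncomputable def dL (n : E) : E →L[ℝ] ℝ := innerSL ℝ n

lemma dL_eq (n x : E) : dL n x = dot n x := by
  simp [dL, dot, PiLp.inner_apply, Fin.sum_univ_three, mul_comm]

lemma amax_exp (P : Set E) (n : E) : IsExposed ℝ P (amax P n) :=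
  fun _ => ⟨dL n, by simp only [amax, dL_eq]⟩

lemma amax_smul (P : Set E) (n : E) {t : ℝ} (ht : 0 < t) : amax P (t • n) = amax P n := by
  have : ∀ x, dot (t • n) x = t * dot n x := fun x => by simp [dot]; ring
  simp only [amax, this, mul_le_mul_iff_right₀ ht]

lemma face_conv {S F : Set E} (hS : S.Finite) (hF : IsExposed ℝ (convexHull ℝ S) F) :
    F = convexHull ℝ (F ∩ (convexHull ℝ S).extremePoints ℝ) := by
  have := closure_convexHull_extremePoints (hF.isCompact (hS.isCompact_convexHull ℝ))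
    (hF.convex (convex_convexHull ℝ S))
  rw [hF.isExtreme.extremePoints_eq, (((hS.subset extremePoints_convexHull_subset).inter_of_right
    F).isClosed_convexHull ℝ).closure_eq] at this
  exact this.symm

lemma three {S F : Set E} (hS : S.Finite) (hF : F ∈ Facets (convexHull ℝ S)) :
    ∃ n, F = amax (convexHull ℝ S) n ∧ ∃ a b c, a ∈ F ∩ (convexHull ℝ S).extremePoints ℝ ∧
      b ∈ F ∩ (convexHull ℝ S).extremePoints ℝ ∧ c ∈ F ∩ (convexHull ℝ S).extremePoints ℝ ∧
      a ≠ b ∧ a ≠ c ∧ b ≠ c := by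
  have fin := (hS.subset (extremePoints_convexHull_subset (𝕜 := ℝ))).inter_of_right F
  have h : 2 < (F ∩ (convexHull ℝ S).extremePoints ℝ).ncard := by
    by_contra hc
    obtain ⟨a, b, h⟩ : ∃ a b, F ∩ (convexHull ℝ S).extremePoints ℝ ⊆ {a, b} := by
      rcases (show _ = 0 ∨ _ = 1 ∨ _ = 2 by omega : (F ∩ (convexHull ℝ S).extremePoints ℝ).ncard = 0 ∨
        (F ∩ (convexHull ℝ S).extremePoints ℝ).ncard = 1 ∨
        (F ∩ (convexHull ℝ S).extremePoints ℝ).ncard = 2) with h | h | h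
      · exact ⟨0, 0, by simp [(ncard_eq_zero fin).1 h]⟩
      · obtain ⟨a, h⟩ := ncard_eq_one.1 h; exact ⟨a, a, by simp [h]⟩
      · obtain ⟨a, b, -, h⟩ := ncard_eq_two.1 h; exact ⟨a, b, h.le⟩
    have h1 := collinear_iff_finrank_le_one.1 ((collinear_pair ℝ a b).subset h)
    have h2 := hF.2
    rw [face_conv hS hF.1, ← direction_affineSpan, affineSpan_convexHull, direction_affineSpan] at h2
    omega
  obtain ⟨a, b, c, h⟩ := (two_lt_ncard_iff fin).1 h
  obtain ⟨l, hl⟩ := hF.1 ⟨a, h.1.1⟩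
  refine ⟨!₂[l (EuclideanSpace.single 0 1), l (EuclideanSpace.single 1 1),
    l (EuclideanSpace.single 2 1)], ?_, a, b, c, h⟩
  have : ∀ x, dot !₂[l (EuclideanSpace.single 0 1), l (EuclideanSpace.single 1 1),
      l (EuclideanSpace.single 2 1)] x = l x := fun x => by
    conv_rhs => rw [decomp x]
    simp [dot, mul_comm]
  simp only [amax, this, ← hl]

lemma not_top {P : Set E} (hP : IsPoly P) : P ∉ Facets P := by
  obtain ⟨⟨S, -, rfl⟩, h⟩ := hP
  rw [(convex_convexHull ℝ S).interior_nonempty_iff_affineSpan_eq_top] at h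
  rintro ⟨-, h2⟩
  rw [← direction_affineSpan, h, AffineSubspace.direction_top] at h2
  simp at h2

/-- barycentric-type coordinates -/
def u (x : E) : Fin 4 → ℝ :=
  ![x 0 + x 1 + x 2, x 0 - x 1 - x 2, -x 0 + x 1 - x 2, -x 0 - x 1 + x 2]

lemma u_inj {x y : E} (h : u x = u y) : x = y := by
  have h0 := congrFun h 0
  have h1 := congrFun h 1
  have h2 := congrFun h 2
  simp [u] at h0 h1 h2
  ext i; fin_cases i <;> simp <;> linarith

lemma dot_u (n x : E) : 4 * dot n x = ∑ i, u n i * u x i := by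
  simp [dot, u, Fin.sum_univ_four]; ring

lemma u_sum (x : E) : ∑ i, u x i = 0 := by simp [u, Fin.sum_univ_four]; ring

noncomputable def iu (w : Fin 4 → ℝ) : E := !₂[(w 0 + w 1) / 2, (w 0 + w 2) / 2, (w 0 + w 3) / 2]

lemma u_iu {w : Fin 4 → ℝ} (h : ∑ i, w i = 0) : u (iu w) = w := by
  rw [Fin.sum_univ_four] at h
  ext i; fin_cases i <;> simp [u, iu] <;> linarith

lemma u_act (σ : Equiv.Perm (Fin 4)) (x : E) : u (iu (u x ∘ σ)) = u x ∘ σ :=
  u_iu ((Equiv.sum_comp σ (u x)).trans (u_sum x))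

lemma nsq (x : E) : ‖x‖ ^ 2 = dot x x := by
  rw [EuclideanSpace.real_norm_sq_eq, Fin.sum_univ_three, dot]; ring

lemma exA (σ : Equiv.Perm (Fin 4)) : ∃ A ∈ Full, ∀ x, u (A x) = u x ∘ σ := by
  have ua : ∀ x y, u (x + y) = u x + u y := fun x y => by
    ext i; fin_cases i <;> simp [u] <;> ring
  have us : ∀ (t : ℝ) x, u (t • x) = t • u x := fun t x => by
    ext i; fin_cases i <;> simp [u] <;> ring
  let L : E →ₗᵢ[ℝ] E :=
    { toFun := fun x => iu (u x ∘ σ)
      map_add' := fun x y => u_inj (by rw [u_act, ua, ua, u_act, u_act]; rfl)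
      map_smul' := fun t x => u_inj (by rw [u_act, RingHom.id_apply, us, us, u_act]; rfl)
      norm_map' := fun x => by
        rw [← sq_eq_sq₀ (norm_nonneg _) (norm_nonneg _), nsq, nsq]
        have h1 := dot_u x x
        have h2 := dot_u (iu (u x ∘ σ)) (iu (u x ∘ σ))
        rw [u_act] at h2
        have := Equiv.sum_comp σ fun i => u x i * u x i
        simp only [Function.comp, LinearMap.coe_mk, AddHom.coe_mk] at *
        linarith }
  refine ⟨L.toLinearIsometryEquiv rfl, ?_, fun x => u_act σ x⟩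
  have hT : ∀ x, x ∈ Tet ↔ ∃ i, u x = fun j => if j = i then 3 else -1 := fun x => by
    have e : ∀ (y : E) w, u y = w → (x = y ↔ u x = w) := fun y w h =>
      ⟨fun e => e ▸ h, fun e => u_inj (e.trans h.symm)⟩
    simp only [Tet, mem_insert_iff, mem_singleton_iff, Fin.exists_fin_succ, IsEmpty.exists_iff,
      or_false]
    refine or_congr (e _ _ ?_) (or_congr (e _ _ ?_) (or_congr (e _ _ ?_) (e _ _ ?_))) <;>
      ext j <;> fin_cases j <;> simp [u] <;> norm_num
  refine eq_of_subset_of_ncard_le ?_ (ncard_image_of_injective _ (LinearIsometryEquiv.injective _)).ge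
    (by simp [Tet])
  rintro _ ⟨x, hx, rfl⟩
  obtain ⟨i, hi⟩ := (hT x).1 hx
  refine (hT _).2 ⟨σ.symm i, (u_act σ x).trans ?_⟩
  ext j; simp [hi, Equiv.eq_symm_apply]

def Gen (w : Fin 4 → ℝ) : Prop :=
  ∃ a b, a ≠ b ∧ (∀ i, w i = w a → i = a) ∧ ∀ i, w i = w b → i = b

def Dz : Fin 14 → Fin 3 → ℤ := ![![1, 1, 1], ![1, -1, -1], ![-1, 1, -1], ![-1, -1, 1],
  ![-1, -1, -1], ![-1, 1, 1], ![1, -1, 1], ![1, 1, -1], ![1, 0, 0], ![-1, 0, 0], ![0, 1, 0],
  ![0, -1, 0], ![0, 0, 1], ![0, 0, -1]]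

def cz (v : Fin 3 → ℤ) : E := !₂[v 0, v 1, v 2]

lemma deg {x : E} (h : ¬ Gen (u x)) : ∃ (k : Fin 14) (t : ℝ), 0 ≤ t ∧ x = t • cz (Dz k) := by
  have key : ∀ (k k' : Fin 14) (t : ℝ), (∀ i, Dz k' i = -Dz k i) → x = t • cz (Dz k) →
      ∃ (k : Fin 14) (t : ℝ), 0 ≤ t ∧ x = t • cz (Dz k) := fun k k' t h1 h2 => by
    rcases le_total 0 t with c | c
    · exact ⟨k, t, c, h2⟩
    · refine ⟨k', -t, by linarith, h2.trans ?_⟩
      ext i; fin_cases i <;> simp [cz, h1]
  have : (u x 0 = u x 1 ∧ u x 0 = u x 2) ∨ (u x 0 = u x 1 ∧ u x 0 = u x 3) ∨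
      (u x 0 = u x 2 ∧ u x 0 = u x 3) ∨ (u x 1 = u x 2 ∧ u x 1 = u x 3) ∨
      (u x 0 = u x 1 ∧ u x 2 = u x 3) ∨ (u x 0 = u x 2 ∧ u x 1 = u x 3) ∨
      (u x 0 = u x 3 ∧ u x 1 = u x 2) := by
    generalize u x = w at h
    by_contra hc
    apply h
    simp only [Gen, Fin.exists_fin_succ, Fin.forall_fin_succ]
    simp
    grind (splits := 60)
  simp only [u, Matrix.cons_val] at this
  rcases this with h | h | h | h | h | h | h
  · exact key 3 7 (x 2) (by decide) (by ext i; fin_cases i <;> simp [cz, Dz] <;> linarith)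
  · exact key 2 6 (x 1) (by decide) (by ext i; fin_cases i <;> simp [cz, Dz] <;> linarith)
  · exact key 1 5 (x 0) (by decide) (by ext i; fin_cases i <;> simp [cz, Dz] <;> linarith)
  · exact key 0 4 (x 0) (by decide) (by ext i; fin_cases i <;> simp [cz, Dz] <;> linarith)
  · exact key 8 9 (x 0) (by decide) (by ext i; fin_cases i <;> simp [cz, Dz] <;> linarith)
  · exact key 10 11 (x 1) (by decide) (by ext i; fin_cases i <;> simp [cz, Dz] <;> linarith)
  · exact key 12 13 (x 2) (by decide) (by ext i; fin_cases i <;> simp [cz, Dz] <;> linarith)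

lemma two {l : Fin 4 → ℝ} (h : Gen l) (v : Fin 4 → ℝ) : ∃ a b : Fin 4 → ℝ, ∀ σ : Equiv.Perm (Fin 4),
    (∀ i j, l i < l j → v (σ i) ≤ v (σ j)) → v ∘ σ = a ∨ v ∘ σ = b := by
  let π := Tuple.sort l
  have hm : Monotone (l ∘ π) := Tuple.monotone_sort l
  obtain ⟨τ, hτ⟩ : ∃ τ : Equiv.Perm (Fin 4), ∀ w : Fin 4 → ℝ,
      (∀ i j, l (π i) < l (π j) → w i ≤ w j) → Monotone w ∨ Monotone (w ∘ τ) := by
    have h0 : l (π 0) ≤ l (π 1) := hm (by decide)
    have h1 : l (π 1) ≤ l (π 2) := hm (by decide)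
    have h2 : l (π 2) ≤ l (π 3) := hm (by decide)
    have hg : Gen (l ∘ π) := by
      obtain ⟨a, b, c, d, e⟩ := h
      exact ⟨π.symm a, π.symm b, by simpa using c, fun i hi => by
        rw [Equiv.eq_symm_apply]; exact d _ (by simpa using hi), fun i hi => by
        rw [Equiv.eq_symm_apply]; exact e _ (by simpa using hi)⟩
    have : (l (π 1) < l (π 2) ∧ l (π 2) < l (π 3)) ∨ (l (π 0) < l (π 1) ∧ l (π 2) < l (π 3)) ∨
        (l (π 0) < l (π 1) ∧ l (π 1) < l (π 2)) := by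
      simp only [Gen, Fin.exists_fin_succ, Fin.forall_fin_succ] at hg
      simp at hg
      grind
    have M : ∀ w : Fin 4 → ℝ, w 0 ≤ w 1 → w 1 ≤ w 2 → w 2 ≤ w 3 → Monotone w := fun w a b c => by
      rw [Fin.monotone_iff_le_succ]; intro i; fin_cases i <;> simpa
    rcases this with h | h | h
    · refine ⟨Equiv.swap 0 1, fun w hw => (le_total (w 0) (w 1)).imp
        (fun c => M _ c (hw _ _ h.1) (hw _ _ h.2)) fun c => M _ c (hw 0 2 (by linarith)) (hw _ _ h.2)⟩
    · refine ⟨Equiv.swap 1 2, fun w hw => (le_total (w 1) (w 2)).imp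
        (fun c => M _ (hw _ _ h.1) c (hw _ _ h.2)) fun c => M _ (hw 0 2 (by linarith)) c
        (hw 1 3 (by linarith))⟩
    · refine ⟨Equiv.swap 2 3, fun w hw => (le_total (w 2) (w 3)).imp
        (fun c => M _ (hw _ _ h.1) (hw _ _ h.2) c) fun c => M _ (hw _ _ h.1) (hw 1 3 (by linarith)) c⟩
  refine ⟨v ∘ Tuple.sort v ∘ π.symm, v ∘ Tuple.sort v ∘ τ.symm ∘ π.symm, fun σ hσ => ?_⟩
  refine (hτ (v ∘ σ ∘ π) fun i j h => hσ _ _ h).imp (fun c => ?_) fun c => ?_
  · have := Tuple.unique_monotone (f := v) (σ := π.trans σ) c (Tuple.monotone_sort v)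
    ext i; simpa using congrFun this (π.symm i)
  · have := Tuple.unique_monotone (f := v) (σ := τ.trans (π.trans σ)) c (Tuple.monotone_sort v)
    ext i; simpa using congrFun this (τ.symm (π.symm i))

lemma us (t : ℝ) (x : E) : u (t • x) = t • u x := by
  ext i; fin_cases i <;> simp [u] <;> ring

def uz (v : Fin 3 → ℤ) : Fin 4 → ℤ :=
  ![v 0 + v 1 + v 2, v 0 - v 1 - v 2, -v 0 + v 1 - v 2, -v 0 - v 1 + v 2]

lemma u_cz (v : Fin 3 → ℤ) (i : Fin 4) : u (cz v) i = uz v i := by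
  fin_cases i <;> simp [u, uz, cz]

def cls (k : Fin 14) : Fin 3 := if k.1 < 4 then 0 else if k.1 < 8 then 1 else 2

lemma refl_le {P : Set E} (oP : ∀ x ∈ P, ∀ σ : Equiv.Perm (Fin 4), ∃ y ∈ P, u y = u x ∘ σ)
    {n z : E} (hz : z ∈ amax P n) {i j : Fin 4} (hij : u n i < u n j) : u z i ≤ u z j := by
  obtain ⟨y, hz1, hz2⟩ := oP _ hz.1 (Equiv.swap i j)
  have h3 := hz.2 y hz1
  have h4 := dot_u n y
  have h5 := dot_u n z
  rw [hz2] at h4
  have h6 : ∑ k, u n k * (u z ∘ Equiv.swap i j) k - ∑ k, u n k * u z k =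
      (u n j - u n i) * (u z i - u z j) := by
    have : i ≠ j := fun h => by simp [h] at hij
    rw [← Finset.sum_sub_distrib, ← Finset.sum_subset (Finset.subset_univ {i, j}),
      Finset.sum_pair this]
    · simp; ring
    · intro k _ hk
      simp only [Finset.mem_insert, Finset.mem_singleton, not_or] at hk
      simp [Equiv.swap_apply_of_ne_of_ne hk.1 hk.2]
  by_contra hc
  have := mul_pos (sub_pos.2 hij) (sub_pos.2 (not_le.1 hc))
  linarith

lemma orb {X : Set E} (h12 : X.ncard = 12) {x : E} (hx : Gen (u x))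
    (oX : ∀ σ : Equiv.Perm (Fin 4), ∃ y ∈ X, u y = u x ∘ σ) :
    ∀ z ∈ X, ∃ σ : Equiv.Perm (Fin 4), u z = u x ∘ σ := by
  obtain ⟨a, b, hab, ha, hb⟩ := hx
  have ex : ∀ a b : Fin 4, a ≠ b → ∀ p : {p : Fin 4 × Fin 4 // p.1 ≠ p.2},
      ∃ σ : Equiv.Perm (Fin 4), σ p.1.1 = a ∧ σ p.1.2 = b := by decide +kernel
  choose σ h1 h2 using ex a b hab
  choose y hy hy' using oX
  have hO : range (y ∘ σ) = X := by
    refine eq_of_subset_of_ncard_le (by rintro _ ⟨p, rfl⟩; exact hy _) ?_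
      (finite_of_ncard_ne_zero (by omega))
    rw [ncard_range_of_injective, h12]
    · rw [Nat.card_eq_fintype_card]; decide
    intro p q h
    have e : u x ∘ σ p = u x ∘ σ q := by rw [← hy', ← hy']; exact congrArg u h
    have e1 := ha (σ q p.1.1) ((congrFun e _).symm.trans (congrArg _ (h1 p)))
    have e2 := hb (σ q p.1.2) ((congrFun e _).symm.trans (congrArg _ (h2 p)))
    exact Subtype.ext (Prod.ext ((σ q).injective (e1.trans (h1 q).symm))
      ((σ q).injective (e2.trans (h2 q).symm)))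
  intro z hz
  obtain ⟨p, rfl⟩ : z ∈ range (y ∘ σ) := hO ▸ hz
  exact ⟨_, hy' _⟩

lemma nogen {P : Set E} (c : Convex ℝ P)
    (oP : ∀ x ∈ P, ∀ σ : Equiv.Perm (Fin 4), ∃ y ∈ P, u y = u x ∘ σ)
    (oX : ∀ x ∈ P.extremePoints ℝ, ∀ σ : Equiv.Perm (Fin 4), ∃ y ∈ P.extremePoints ℝ, u y = u x ∘ σ)
    (hg : ∀ x ∈ P.extremePoints ℝ, ¬ Gen (u x)) : (P.extremePoints ℝ).ncard ≠ 12 := by
  classical
  intro h12
  have neg : ∀ x ∈ P, (-1 / 3 : ℝ) • x ∈ P := fun x hx => by
    obtain ⟨y1, a1, b1⟩ := oP x hx (finRotate 4)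
    obtain ⟨y2, a2, b2⟩ := oP y1 a1 (finRotate 4)
    obtain ⟨y3, a3, b3⟩ := oP y2 a2 (finRotate 4)
    have := c (c a1 a2 (a := 1 / 2) (b := 1 / 2) (by norm_num) (by norm_num) (by norm_num)) a3
      (a := 2 / 3) (b := 1 / 3) (by norm_num) (by norm_num) (by norm_num)
    convert this using 1
    rw [b1] at b2
    rw [b2] at b3
    have k : ∀ (y : E) w, u y = w → y = iu w := fun y w h => u_inj (by rw [← h, u_iu (u_sum y)])
    rw [k _ _ b1, k _ _ b2, k _ _ b3]
    ext i; fin_cases i <;> simp [iu, u] <;> ring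
  have ray : ∀ x ∈ P, ∀ r : ℝ, 0 ≤ r → r < 1 → r • x ∈ P.extremePoints ℝ → x = 0 :=
    fun x hx r h0 h1 h => by
    have := (mem_extremePoints.1 h).2 _ (neg x hx) _ hx ⟨3 * (1 - r) / 4, (1 + 3 * r) / 4,
      by linarith, by linarith, by ring, by rw [smul_smul, ← add_smul]; congr 1; ring⟩
    have e : (1 - r) • x = 0 := by rw [sub_smul, one_smul, ← this.2, sub_self]
    exact (smul_eq_zero.1 e).resolve_left (by linarith)
  have h0 : (0 : E) ∉ P.extremePoints ℝ := fun h => by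
    have := ncard_le_ncard (t := {0}) (fun x (hx : x ∈ P.extremePoints ℝ) =>
      ray x hx.1 0 le_rfl one_pos (by simpa using h)) (finite_singleton _)
    simp [h12] at this
  let K : Set (Fin 14) := {k | ∃ t : ℝ, 0 < t ∧ t • cz (Dz k) ∈ P.extremePoints ℝ}
  have hK : K.ncard = 12 := by
    have : ∀ k ∈ K, ∃ t : ℝ, 0 < t ∧ t • cz (Dz k) ∈ P.extremePoints ℝ := fun k hk => hk
    choose! t t0 t1 using this
    rw [← h12]
    refine ncard_congr (fun k _ => t k • cz (Dz k)) t1 (fun k k' hk hk' h => ?_) fun x hx => ?_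
    · have d : ∀ k k', (∀ i, (0 < Dz k i ↔ 0 < Dz k' i) ∧ (Dz k i < 0 ↔ Dz k' i < 0)) → k = k' := by
        decide +kernel
      refine d k k' fun i => ?_
      have e : t k * Dz k i = t k' * Dz k' i := by
        have := congrArg (· i) h
        fin_cases i <;> simpa [cz] using this
      have a := t0 k hk
      have b := t0 k' hk'
      rw [← Int.cast_pos (R := ℝ), ← Int.cast_pos (R := ℝ), ← Int.cast_lt_zero (R := ℝ),
        ← Int.cast_lt_zero (R := ℝ)]
      refine ⟨⟨fun c => ?_, fun c => ?_⟩, fun c => ?_, fun c => ?_⟩ <;> by_contra! f <;> nlinarith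
    · obtain ⟨k, s, hs, rfl⟩ := deg (hg x hx)
      have hs : 0 < s := hs.lt_of_ne (by rintro rfl; exact h0 (by simpa using hx))
      have hk : k ∈ K := ⟨s, hs, hx⟩
      have := t0 k hk
      refine ⟨k, hk, ?_⟩
      rcases lt_trichotomy (t k) s with h | h | h
      · exact absurd (ray _ hx.1 (t k / s) (by positivity) ((div_lt_one hs).2 h)
          (by rw [smul_smul, div_mul_cancel₀ _ hs.ne']; exact t1 k hk) ▸ hx) h0
      · rw [h]
      · exact absurd (ray _ (t1 k hk).1 (s / t k) (by positivity) ((div_lt_one this).2 h)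
          (by rw [smul_smul, div_mul_cancel₀ _ this.ne']; exact hx) ▸ t1 k hk) h0
  have d1 : ∀ k k', cls k = cls k' → ∃ σ : Equiv.Perm (Fin 4), ∀ i, uz (Dz k') i = uz (Dz k) (σ i) := by
    decide +kernel
  have d2 : ∀ C : Finset (Fin 3), (Finset.univ.filter fun k => cls k ∈ C).card ≠ 12 := by
    decide +kernel
  refine d2 (Finset.univ.filter fun a => ∃ k ∈ K, cls k = a) ?_
  rw [← hK, ← ncard_coe_finset]
  congr 1
  ext k'
  simp only [Finset.coe_filter, Finset.mem_univ, true_and, Finset.mem_filter, mem_ofPred_eq]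
  refine ⟨fun ⟨k, ⟨t, t0, t1⟩, h⟩ => ⟨t, t0, ?_⟩, fun h => ⟨k', h, rfl⟩⟩
  obtain ⟨σ, hσ⟩ := d1 k k' h
  obtain ⟨y, hy, e⟩ := oX _ t1 σ
  convert hy
  refine u_inj ?_
  rw [e, us, us]
  ext i; simp [u_cz, hσ]

lemma notFull : ((12, 20) : ℕ × ℕ) ∉ FV Full := by
  rintro ⟨P, hP, hG, hf⟩
  obtain ⟨h12, h20⟩ := Prod.mk.inj hf
  have oP : ∀ x ∈ P, ∀ σ : Equiv.Perm (Fin 4), ∃ y ∈ P, u y = u x ∘ σ := fun x hx σ => by
    obtain ⟨A, hA, h⟩ := exA σ
    exact ⟨A x, hG A hA ▸ mem_image_of_mem _ hx, h x⟩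
  have oX : ∀ x ∈ P.extremePoints ℝ, ∀ σ : Equiv.Perm (Fin 4),
      ∃ y ∈ P.extremePoints ℝ, u y = u x ∘ σ := fun x hx σ => by
    obtain ⟨A, hA, h⟩ := exA σ
    refine ⟨A x, ?_, h x⟩
    have := image_extremePoints (𝕜 := ℝ) A.toLinearEquiv P
    rw [show A.toLinearEquiv '' P = P from hG A hA] at this
    rw [← this]
    exact mem_image_of_mem _ hx
  obtain ⟨⟨S, hS, hPS⟩, -⟩ := id hP
  by_cases hg : ∃ x ∈ P.extremePoints ℝ, Gen (u x)
  · obtain ⟨x, hx, hx'⟩ := hg
    have hO := orb h12.symm hx' (oX x hx)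
    have : Facets P ⊆ range fun k => amax P (cz (Dz k)) := fun F hF => by
      obtain ⟨n, hn, c, d, e, hc, hd, he, hcd, hce, hde⟩ := three hS (hPS ▸ hF)
      rw [← hPS] at hn hc hd he
      by_cases hl : Gen (u n)
      · exfalso
        obtain ⟨w, w', h⟩ := two hl (u x)
        have : ∀ z ∈ F ∩ P.extremePoints ℝ, u z = w ∨ u z = w' := fun z hz => by
          obtain ⟨σ, hσ⟩ := hO z hz.2
          rw [hσ]
          refine h _ fun i j hij => ?_
          have := refl_le oP (hn ▸ hz.1) hij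
          rwa [hσ] at this
        have k1 := mt u_inj hcd
        have k2 := mt u_inj hce
        have k3 := mt u_inj hde
        have k4 := this c hc
        have k5 := this d hd
        have k6 := this e he
        grind
      · obtain ⟨k, t, ht, rfl⟩ := deg hl
        rcases ht.eq_or_lt with rfl | ht
        · refine absurd ?_ (not_top hP)
          have : F = P := by rw [hn]; ext; simp [amax, dot]
          exact this ▸ hF
        · exact ⟨k, by rw [hn, amax_smul _ _ ht]⟩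
    have h1 := ncard_le_ncard this (finite_range _)
    have h2 := ncard_image_le (f := fun k => amax P (cz (Dz k))) (s := univ) finite_univ
    rw [image_univ, ncard_univ, Nat.card_eq_fintype_card, Fintype.card_fin] at h2
    omega
  · exact nogen (hPS ▸ convex_convexHull ℝ S) oP oX (fun x hx h => hg ⟨x, hx, h⟩) h12.symm

def W : Fin 12 → Fin 3 → ℤ := ![![0, 1, 2], ![2, 0, 1], ![1, 2, 0], ![0, 1, -2], ![-2, 0, 1],
  ![1, -2, 0], ![0, -1, 2], ![2, 0, -1], ![-1, 2, 0], ![0, -1, -2], ![-2, 0, -1], ![-1, -2, 0]]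

def N : Fin 20 → Fin 3 → ℤ := ![![3, 3, 3], ![2, 0, 4], ![0, 4, 2], ![-2, 0, 4], ![-3, 3, 3],
  ![4, 2, 0], ![3, -3, 3], ![4, -2, 0], ![3, 3, -3], ![0, 4, -2], ![2, 0, -4], ![-3, 3, -3],
  ![-2, 0, -4], ![-3, -3, 3], ![-4, 2, 0], ![-4, -2, 0], ![0, -4, 2], ![3, -3, -3], ![0, -4, -2],
  ![-3, -3, -3]]

def T : Fin 20 → Fin 12 × Fin 12 × Fin 12 := ![(0, 1, 2), (0, 1, 6), (0, 2, 8), (0, 4, 6), (0, 4, 8),
  (1, 2, 7), (1, 5, 6), (1, 5, 7), (2, 3, 7), (2, 3, 8), (3, 7, 9), (3, 8, 10), (3, 9, 10),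
  (4, 6, 11), (4, 8, 10), (4, 10, 11), (5, 6, 11), (5, 7, 9), (5, 9, 11), (9, 10, 11)]

def dz (a b : Fin 3 → ℤ) : ℤ := a 0 * b 0 + a 1 * b 1 + a 2 * b 2

def cr (i j l : Fin 12) : Fin 3 → ℤ :=
  ![(W j 1 - W i 1) * (W l 2 - W i 2) - (W j 2 - W i 2) * (W l 1 - W i 1),
    (W j 2 - W i 2) * (W l 0 - W i 0) - (W j 0 - W i 0) * (W l 2 - W i 2),
    (W j 0 - W i 0) * (W l 1 - W i 1) - (W j 1 - W i 1) * (W l 0 - W i 0)]

lemma dot_cz (a b : Fin 3 → ℤ) : dot (cz a) (cz b) = dz a b := by simp [dot, cz, dz]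

def Ico : Set E := convexHull ℝ (range fun i => cz (W i))

lemma inI (i : Fin 12) : cz (W i) ∈ Ico := subset_convexHull ℝ _ ⟨i, rfl⟩

lemma mem_amax (n : E) (i : Fin 12) :
    cz (W i) ∈ amax Ico n ↔ ∀ m, dot n (cz (W m)) ≤ dot n (cz (W i)) := by
  refine ⟨fun h m => h.2 _ (inI m), fun h => ⟨inI i, fun y hy => ?_⟩⟩
  simp only [← dL_eq] at h ⊢
  exact convexHull_min (by rintro _ ⟨m, rfl⟩; exact h m)
    (convex_halfSpace_le (dL n).toLinearMap.isLinear _) hy

lemma extI : Ico.extremePoints ℝ = range fun i => cz (W i) := by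
  refine extremePoints_convexHull_subset.antisymm ?_
  have h : ∀ i, ‖cz (W i)‖ = √5 := fun i => by
    rw [← Real.sqrt_sq (norm_nonneg _), nsq, dot_cz, (by decide +kernel : ∀ i, dz (W i) (W i) = 5)]
    simp
  rintro _ ⟨i, rfl⟩
  refine inter_extremePoints_subset_extremePoints_of_subset (A := Metric.closedBall 0 √5)
    (convexHull_min ?_ (convex_closedBall _ _)) ⟨inI i, ?_⟩
  · rintro _ ⟨i, rfl⟩; simp [h]
  · rw [StrictConvexSpace.extremePoints_closedBall_eq_sphere]; simp [h]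

lemma cz_inj : Function.Injective cz := fun a b h => by
  ext i
  have := congrArg (· i) h
  fin_cases i <;> simpa [cz] using this

lemma polyI : IsPoly Ico := by
  refine ⟨⟨_, finite_range _, rfl⟩, ?_⟩
  rw [(show Convex ℝ Ico from convex_convexHull ℝ _).interior_nonempty_iff_affineSpan_eq_top,
    AffineSubspace.affineSpan_eq_top_iff_vectorSpan_eq_top_of_nonempty ℝ E E ⟨_, inI 0⟩, eq_top_iff]
  intro x _
  have h := fun i j => vsub_mem_vectorSpan ℝ (inI i) (inI j)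
  convert add_mem (add_mem (Submodule.smul_mem _ (x 0 / 4) (h 1 4))
    (Submodule.smul_mem _ (x 1 / 2) (h 0 6))) (Submodule.smul_mem _ (x 2 / 4) (h 0 3))
  ext i; fin_cases i <;> simp [cz, W] <;> ring

lemma facI : Facets Ico = range fun k => amax Ico (cz (N k)) := by
  refine Subset.antisymm (fun F hF => ?_) ?_
  · obtain ⟨n, hn, a, b, c, ha, hb, hc, hab, hac, hbc⟩ := three (finite_range _) hF
    change F = amax Ico n at hn
    obtain ⟨i, rfl⟩ := extremePoints_convexHull_subset ha.2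
    obtain ⟨j, rfl⟩ := extremePoints_convexHull_subset hb.2
    obtain ⟨l, rfl⟩ := extremePoints_convexHull_subset hc.2
    have key : ∀ i j l, i ≠ j → i ≠ l → j ≠ l → cz (W i) ∈ F → cz (W j) ∈ F → cz (W l) ∈ F →
        (∃ s : ℝ, n = s • cz (cr i j l)) ∧
        ∀ s : ℝ, 0 < s → n = s • cz (cr i j l) → ∃ k, amax Ico (cz (N k)) = F := by
      intro i j l h1 h2 h3 a b c
      rw [hn] at a b c ⊢
      have d1 : ∀ i j l, i ≠ j → i ≠ l → j ≠ l → dz (cr i j l) (cr i j l) ≠ 0 := by decide +kernel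
      have d2 : ∀ i j l, i ≠ j → i ≠ l → j ≠ l →
          (∀ m, dz (cr i j l) (W m) ≤ dz (cr i j l) (W i)) → ∃ k, N k = cr i j l := by decide +kernel
      constructor
      · have e1 := (a.2 _ b.1).antisymm (b.2 _ a.1)
        have e2 := (a.2 _ c.1).antisymm (c.2 _ a.1)
        have e3 : ((dz (cr i j l) (cr i j l) : ℤ) : ℝ) ≠ 0 := by exact_mod_cast d1 i j l h1 h2 h3
        refine ⟨dot n (cz (cr i j l)) / dz (cr i j l) (cr i j l), ?_⟩
        have e : ∀ (p q w : Fin 3 → ℝ), dot n !₂[p 0, p 1, p 2] = dot n !₂[w 0, w 1, w 2] →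
            dot n !₂[q 0, q 1, q 2] = dot n !₂[w 0, w 1, w 2] → ∀ c0 c1 c2 : ℝ,
            c0 = (p 1 - w 1) * (q 2 - w 2) - (p 2 - w 2) * (q 1 - w 1) →
            c1 = (p 2 - w 2) * (q 0 - w 0) - (p 0 - w 0) * (q 2 - w 2) →
            c2 = (p 0 - w 0) * (q 1 - w 1) - (p 1 - w 1) * (q 0 - w 0) →
            (c0 * c0 + c1 * c1 + c2 * c2) • n = dot n !₂[c0, c1, c2] • !₂[c0, c1, c2] := by
          intro p q w hp hq c0 c1 c2 h0 h1 h2
          simp [dot] at hp hq
          have g0 : n 1 * c2 - n 2 * c1 = 0 := by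
            rw [h1, h2]; linear_combination (p 0 - w 0) * hq - (q 0 - w 0) * hp
          have g1 : n 2 * c0 - n 0 * c2 = 0 := by
            rw [h0, h2]; linear_combination (p 1 - w 1) * hq - (q 1 - w 1) * hp
          have g2 : n 0 * c1 - n 1 * c0 = 0 := by
            rw [h0, h1]; linear_combination (p 2 - w 2) * hq - (q 2 - w 2) * hp
          ext i; fin_cases i <;> simp [dot]
          · linear_combination c1 * g2 - c2 * g1
          · linear_combination c2 * g0 - c0 * g2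
          · linear_combination c0 * g1 - c1 * g0
        have := e (fun k => W j k) (fun k => W l k) (fun k => W i k) e1 e2 (cr i j l 0) (cr i j l 1)
          (cr i j l 2) (by simp [cr]) (by simp [cr]) (by simp [cr])
        rw [div_eq_inv_mul, mul_smul]
        refine (eq_inv_smul_iff₀ e3).2 ?_
        rw [dz]
        push_cast
        exact this
      · rintro s hs rfl
        rw [amax_smul _ _ hs] at a ⊢
        obtain ⟨k, hk⟩ := d2 i j l h1 h2 h3 fun m => by
          have := (mem_amax _ _).1 a m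
          rw [dot_cz, dot_cz] at this
          exact_mod_cast this
        exact ⟨k, by rw [hk]⟩
    have ij : i ≠ j := fun h => hab (h ▸ rfl)
    have il : i ≠ l := fun h => hac (h ▸ rfl)
    have jl : j ≠ l := fun h => hbc (h ▸ rfl)
    obtain ⟨⟨s, hs⟩, h⟩ := key i j l ij il jl ha.1 hb.1 hc.1
    rcases lt_trichotomy s 0 with h0 | rfl | h0
    · refine (key i l j il ij jl.symm ha.1 hc.1 hb.1).2 (-s) (by linarith) (hs.trans ?_)
      ext i; fin_cases i <;> simp [cz, cr] <;> ring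
    · refine absurd ?_ (not_top polyI)
      have : F = Ico := by rw [hn, hs]; ext; simp [amax, dot]
      exact this ▸ hF
    · exact h s h0 hs
  · rintro _ ⟨k, rfl⟩
    refine ⟨amax_exp _ _, ?_⟩
    have d : ∀ k, dz (N k) (N k) ≠ 0 ∧ cr (T k).1 (T k).2.1 (T k).2.2 ≠ 0 ∧ ∀ m,
        dz (N k) (W m) ≤ dz (N k) (W (T k).1) ∧ dz (N k) (W m) ≤ dz (N k) (W (T k).2.1) ∧
        dz (N k) (W m) ≤ dz (N k) (W (T k).2.2) := by decide +kernel
    obtain ⟨d0, d1, d2⟩ := d k
    have m : ∀ i, (∀ m, dz (N k) (W m) ≤ dz (N k) (W i)) → cz (W i) ∈ amax Ico (cz (N k)) :=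
      fun i h => (mem_amax _ _).2 fun m => by rw [dot_cz, dot_cz]; exact_mod_cast h m
    have h1 : ¬ finrank ℝ (vectorSpan ℝ (amax Ico (cz (N k)))) ≤ 1 := fun h => by
      have a := m _ fun m => (d2 m).1
      obtain ⟨v, hv⟩ := (collinear_iff_of_mem a).1 (collinear_iff_finrank_le_one.2 h)
      obtain ⟨r, hr⟩ := hv _ (m _ fun m => (d2 m).2.1)
      obtain ⟨s, hs⟩ := hv _ (m _ fun m => (d2 m).2.2)
      have e : ∀ {a b : Fin 3 → ℤ} {r : ℝ}, cz a = r • v +ᵥ cz b → ∀ i, (a i : ℝ) = r * v i + b i :=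
        fun h i => by
          have := congrArg (· i) h
          fin_cases i <;> simpa [cz] using this
      refine d1 (cz_inj ?_)
      ext i; fin_cases i <;> simp [cz, cr, e hr, e hs] <;> ring
    have h2 : vectorSpan ℝ (amax Ico (cz (N k))) ≠ ⊤ := fun h => by
      have : vectorSpan ℝ (amax Ico (cz (N k))) ≤ LinearMap.ker (dL (cz (N k))).toLinearMap := by
        rw [vectorSpan_def, Submodule.span_le]
        rintro _ ⟨x, hx, y, hy, rfl⟩
        have := (hy.2 _ hx.1).antisymm (hx.2 _ hy.1)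
        rw [← dL_eq, ← dL_eq, ← sub_eq_zero, ← map_sub] at this
        exact this
      have := this (h ▸ Submodule.mem_top : cz (N k) ∈ _)
      simp [dL_eq, dot_cz, d0] at this
    have := Submodule.finrank_lt h2
    simp only [finrank_euclideanSpace, Fintype.card_fin] at this ⊢
    omega

lemma cardI : (Facets Ico).ncard = 20 := by
  rw [facI, ncard_range_of_injective]
  · simp
  intro k k' h
  have d : ∀ k k', (∀ i, (∀ m, dz (N k) (W m) ≤ dz (N k) (W i)) →
      ∀ m, dz (N k') (W m) ≤ dz (N k') (W i)) → k = k' := by decide +kernel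
  refine d k k' fun i hi m => ?_
  have : cz (W i) ∈ amax Ico (cz (N k)) :=
    (mem_amax _ _).2 fun m => by rw [dot_cz, dot_cz]; exact_mod_cast hi m
  rw [show amax _ _ = amax _ _ from h] at this
  have := (mem_amax _ _).1 this m
  rw [dot_cz, dot_cz] at this
  exact_mod_cast this

def vz (i : Fin 4) : Fin 3 → ℤ := Dz (i.castLE (by decide))

def Mz (σ : Fin 4 → Fin 4) (i k : Fin 3) : ℤ := (vz (σ 0) i + vz (σ k.succ) i) / 2

lemma rotI {A : E ≃ₗᵢ[ℝ] E} (hA : A ∈ Rot) : A '' Ico = Ico := by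
  have hT : Tet = range fun i => cz (vz i) := by
    ext x
    simp [Tet, Fin.exists_fin_succ, cz, vz, Dz, eq_comm]
  have : ∀ i, ∃ j, cz (vz j) = A (cz (vz i)) := fun i => by
    have : A (cz (vz i)) ∈ Tet := hA.1 ▸ mem_image_of_mem _ (hT ▸ ⟨i, rfl⟩)
    rwa [hT] at this
  choose σ hσ using this
  have inj : Function.Injective σ := fun i j h => by
    have := cz_inj (A.injective ((hσ i).symm.trans (h ▸ hσ j)))
    exact (by decide : Function.Injective vz) this
  have col : ∀ k i, A (EuclideanSpace.single k 1) i = Mz σ i k := fun k i => by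
    have e : EuclideanSpace.single k (1 : ℝ) = (1 / 2 : ℝ) • (cz (vz 0) + cz (vz k.succ)) := by
      ext i; fin_cases i <;> fin_cases k <;> simp [cz, vz, Dz] <;> norm_num
    have d : ∀ a b i, vz a i + vz b i = 2 * ((vz a i + vz b i) / 2) := by decide
    have : ((vz (σ 0) i : ℤ) : ℝ) + vz (σ k.succ) i = 2 * Mz σ i k := by
      exact_mod_cast d (σ 0) (σ k.succ) i
    rw [e, map_smul, map_add, ← hσ, ← hσ]
    fin_cases i <;> simp [cz] at this ⊢ <;> linarith
  have det : Mz σ 0 0 * Mz σ 1 1 * Mz σ 2 2 - Mz σ 0 0 * Mz σ 1 2 * Mz σ 2 1 -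
      Mz σ 0 1 * Mz σ 1 0 * Mz σ 2 2 + Mz σ 0 1 * Mz σ 1 2 * Mz σ 2 0 +
      Mz σ 0 2 * Mz σ 1 0 * Mz σ 2 1 - Mz σ 0 2 * Mz σ 1 1 * Mz σ 2 0 = 1 := by
    have := hA.2
    rw [← LinearMap.det_toMatrix (EuclideanSpace.basisFun (Fin 3) ℝ).toBasis,
      Matrix.det_fin_three] at this
    simp only [LinearMap.toMatrix_apply] at this
    simp [col] at this
    exact_mod_cast this
  have d : ∀ σ : Fin 4 → Fin 4, Function.Injective σ → Mz σ 0 0 * Mz σ 1 1 * Mz σ 2 2 -
      Mz σ 0 0 * Mz σ 1 2 * Mz σ 2 1 - Mz σ 0 1 * Mz σ 1 0 * Mz σ 2 2 +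
      Mz σ 0 1 * Mz σ 1 2 * Mz σ 2 0 + Mz σ 0 2 * Mz σ 1 0 * Mz σ 2 1 -
      Mz σ 0 2 * Mz σ 1 1 * Mz σ 2 0 = 1 → ∀ j, ∃ l, ∀ i, W l i = dz (W j) (Mz σ i) := by
    decide +kernel
  have : A '' (range fun i => cz (W i)) = range fun i => cz (W i) := by
    refine eq_of_subset_of_ncard_le ?_ (ncard_image_of_injective _ A.injective).ge (finite_range _)
    rintro _ ⟨_, ⟨j, rfl⟩, rfl⟩
    obtain ⟨l, hl⟩ := d σ inj det j
    refine ⟨l, ?_⟩
    beta_reduce
    rw [decomp (cz (W j))]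
    ext i
    simp only [map_add, map_smul, PiLp.add_apply, PiLp.smul_apply, col]
    fin_cases i <;> simp [cz, hl, dz]
  exact (LinearMap.image_convexHull A.toLinearEquiv.toLinearMap _).trans (congrArg _ this)

theorem result : ((12, 20) ∈ FV Rot ∧ (12, 20) ∉ FV Full) ∧ FV Full ≠ FV Rot := by
  have : ((12, 20) : ℕ × ℕ) ∈ FV Rot := ⟨Ico, polyI, fun A => rotI, by
    rw [cardI, extI, ncard_range_of_injective (f := fun i => cz (W i))
      (cz_inj.comp (by decide +kernel : Function.Injective W))]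
    simp⟩
  exact ⟨⟨this, notFull⟩, fun h => notFull (h ▸ this)⟩

end Pool.Agent.Results.MP_52b7e0_co.No
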